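import Pool.Agent.Helper64.PQ.Goals
import Pool.Agent.Helper67.Big.C4
import Pool.Agent.Helper90.BigC12

/-!
# Packet PQ-E3: infinite products of homeomorphisms supported in disjoint discs
-/

set_option autoImplicit false

open Topology Filter Set Metric
open Pool.Agent.Helper78.BigMap Pool.Agent.Helper64.PQ

namespace Pool.Agent.Helper19.PQ

lemma finE3 : (inC E3).Finite := by
  unfold inC E3
  apply Set.Finite.image
  simp

lemma conn_ball : IsPreconnected (ball (0 : ℂ) 1 \ inC E3) := by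
  set e := OpenPartialHomeomorph.univUnitBall (E := ℂ) with he
  have hs : e.source = univ := rfl
  have ht : e.target = ball (0 : ℂ) 1 := rfl
  have hinj : Function.Injective e := by
    intro x y hxy
    exact e.injOn (by rw [hs]; trivial) (by rw [hs]; trivial) hxy
  have hS : (e ⁻¹' inC E3).Finite := finE3.preimage hinj.injOn
  have h1 : IsConnected ((e ⁻¹' inC E3)ᶜ) :=
    hS.countable.isConnected_compl_of_one_lt_rank (by simp)
  have h2 : IsPreconnected (e '' (e ⁻¹' inC E3)ᶜ) := by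
    apply h1.isPreconnected.image
    apply e.continuousOn.mono
    rw [hs]
    exact subset_univ _
  have h3 : e '' (e ⁻¹' inC E3)ᶜ = ball (0 : ℂ) 1 \ inC E3 := by
    rw [← preimage_compl, image_preimage_eq_inter_range]
    have h4 : range e = ball (0 : ℂ) 1 := by
      rw [← image_univ, ← hs, e.image_source_eq_target, ht]
    rw [h4, inter_comm]
    rfl
  rw [← h3]
  exact h2

section
variable {X : Type*} [TopologicalSpace X] {J : ℕ → OpenPartialHomeomorph ℂ X}
  {O : Set (OpenPartialHomeomorph (Sf J) ℂ)} {k : ℕ → OpenPartialHomeomorph ℂ (Sf J)}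

/-- the conditions on the family `T` -/
structure Tw (T : ℕ → ℂ ≃ₜ ℂ) : Prop where
  far : ∀ i z, 7/10 ≤ ‖z‖ → T i z = z
  near : ∀ i, ∀ e ∈ inC E3, ∀ z, ‖z - e‖ ≤ 1/25 → T i z = z

lemma Tw.symm {T : ℕ → ℂ ≃ₜ ℂ} (h : Tw T) : Tw (fun i => (T i).symm) :=
  ⟨fun i z hz => by rw [Homeomorph.symm_apply_eq, h.far i z hz],
    fun i e he z hz => by rw [Homeomorph.symm_apply_eq, h.near i e he z hz]⟩

lemma Tw.fixE {T : ℕ → ℂ ≃ₜ ℂ} (h : Tw T) (i : ℕ) {z : ℂ} (hz : z ∈ inC E3) : T i z = z :=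
  h.near i z hz z (by simp)

lemma Tw.norm {T : ℕ → ℂ ≃ₜ ℂ} (h : Tw T) (i : ℕ) {z : ℂ} (hz : ‖z‖ < 7/10) :
    ‖T i z‖ < 7/10 := by
  by_contra h0
  have h1 := h.far i (T i z) (not_lt.1 h0)
  have h2 := (T i).injective h1
  rw [h2] at h0
  exact h0 hz

lemma Tw.notE {T : ℕ → ℂ ≃ₜ ℂ} (h : Tw T) (i : ℕ) {z : ℂ} (hz : z ∉ inC E3) :
    T i z ∉ inC E3 := by
  intro h0
  have h1 := h.fixE i h0
  have h2 := (T i).injective h1
  rw [h2] at h0
  exact hz h0

lemma Tw.ball {T : ℕ → ℂ ≃ₜ ℂ} (h : Tw T) (i : ℕ) {z : ℂ} {r : ℝ} (hr : 7/10 ≤ r)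
    (hz : z ∈ ball (0 : ℂ) r \ inC E3) : T i z ∈ ball (0 : ℂ) r \ inC E3 := by
  refine ⟨?_, h.notE i hz.2⟩
  rw [mem_ball_zero_iff]
  by_cases h0 : ‖z‖ < 7/10
  · exact (h.norm i h0).trans_le hr
  · rw [h.far i z (not_lt.1 h0)]
    have := hz.1
    rwa [mem_ball_zero_iff] at this

/-- the targets are disjoint -/
lemma uniq (hJ : Data J) (hk : IsK J O k) {i m : ℕ} {x : Sf J} (h1 : x ∈ (k i).target)
    (h2 : x ∈ (k m).target) : i = m := by
  by_contra hne
  have key : ∀ i, x ∈ (k i).target → (x : X) ∈ (J i).target := by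
    intro i hx
    have hs := (k i).map_target hx
    have h3 := (hk i).2.2 _ hs
    rw [(k i).right_inv hx] at h3
    rw [h3]
    apply (J i).map_source
    rw [hJ.source]
    rw [(hk i).2.1] at hs
    exact hs.1
  exact Set.disjoint_left.1 (hJ.disj hne) (key i h1) (key m h2)

open Classical in
/-- the infinite product -/
noncomputable def ext (k : ℕ → OpenPartialHomeomorph ℂ (Sf J)) (T : ℕ → ℂ → ℂ) (x : Sf J) :
    Sf J :=
  if h : ∃ i, x ∈ (k i).target then k h.choose (T h.choose ((k h.choose).symm x)) else x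

lemma ext_of_mem (hJ : Data J) (hk : IsK J O k) {T : ℕ → ℂ → ℂ} {x : Sf J} {i : ℕ}
    (hx : x ∈ (k i).target) : ext k T x = k i (T i ((k i).symm x)) := by
  classical
  have h : ∃ i, x ∈ (k i).target := ⟨i, hx⟩
  have h2 : h.choose = i := uniq hJ hk h.choose_spec hx
  unfold ext
  rw [dif_pos h, h2]

lemma ext_of_notMem {T : ℕ → ℂ → ℂ} {x : Sf J} (hx : ¬ ∃ i, x ∈ (k i).target) :
    ext k T x = x := by
  classical
  exact dif_neg hx

lemma ext_k (hJ : Data J) (hk : IsK J O k) {T : ℕ → ℂ → ℂ} {i : ℕ} {z : ℂ}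
    (hz : z ∈ (k i).source) : ext k T (k i z) = k i (T i z) := by
  rw [ext_of_mem hJ hk ((k i).map_source hz), (k i).left_inv hz]

/-- the closed core -/
def core (k : ℕ → OpenPartialHomeomorph ℂ (Sf J)) : Set (Sf J) :=
  ⋃ i, k i '' (closedBall (0 : ℂ) 1 \ inC E3)

lemma core_sub (hk : IsK J O k) (i : ℕ) : closedBall (0 : ℂ) 1 \ inC E3 ⊆ (k i).source := by
  rw [(hk i).2.1]
  rintro z ⟨h1, h2⟩
  refine ⟨?_, h2⟩
  rw [mem_closedBall_zero_iff] at h1
  rw [mem_ball_zero_iff]
  linarith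

lemma core_eq (hk : IsK J O k) :
    core k = Subtype.val ⁻¹' (⋃ i, J i '' closedBall (0 : ℂ) 1) := by
  ext x
  simp only [core, mem_iUnion, mem_preimage, mem_image]
  constructor
  · rintro ⟨i, z, hz, rfl⟩
    exact ⟨i, z, hz.1, ((hk i).2.2 z (core_sub hk i hz)).symm⟩
  · rintro ⟨i, z, hz, hzx⟩
    have hzE : z ∉ inC E3 := by
      intro h
      apply x.2
      exact mem_iUnion.2 ⟨i, z, h, hzx⟩
    refine ⟨i, z, ⟨hz, hzE⟩, ?_⟩
    apply Subtype.ext
    rw [(hk i).2.2 z (core_sub hk i ⟨hz, hzE⟩), hzx]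

lemma core_closed (hJ : Data J) (hk : IsK J O k) : IsClosed (core k) := by
  rw [core_eq hk]
  exact hJ.closed.preimage continuous_subtype_val

lemma ext_outside (hJ : Data J) (hk : IsK J O k) {T : ℕ → ℂ ≃ₜ ℂ} (hT : Tw T) {x : Sf J}
    (hx : x ∉ core k) : ext k (fun i => T i) x = x := by
  by_cases h : ∃ i, x ∈ (k i).target
  · obtain ⟨i, hi⟩ := h
    rw [ext_of_mem hJ hk hi]
    have h1 : (k i).symm x ∈ (k i).source := (k i).map_target hi
    have h2 : 7/10 ≤ ‖(k i).symm x‖ := by
      by_contra h3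
      apply hx
      refine mem_iUnion.2 ⟨i, (k i).symm x, ⟨?_, ?_⟩, (k i).right_inv hi⟩
      · rw [mem_closedBall_zero_iff]
        linarith [not_le.1 h3]
      · rw [(hk i).2.1] at h1
        exact h1.2
    rw [hT.far i _ h2, (k i).right_inv hi]
  · exact ext_of_notMem h

lemma cover (hk : IsK J O k) (x : Sf J) : (∃ i, x ∈ (k i).target) ∨ x ∉ core k := by
  by_cases h : ∃ i, x ∈ (k i).target
  · exact Or.inl h
  · right
    intro hx
    obtain ⟨i, z, hz, rfl⟩ := mem_iUnion.1 hx
    exact h ⟨i, (k i).map_source (core_sub hk i hz)⟩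

lemma T_source (hk : IsK J O k) {T : ℕ → ℂ ≃ₜ ℂ} (hT : Tw T) {i : ℕ} {z : ℂ}
    (hz : z ∈ (k i).source) : T i z ∈ (k i).source := by
  rw [(hk i).2.1] at hz ⊢
  exact hT.ball i (by norm_num) hz

lemma ext_continuous (hJ : Data J) (hk : IsK J O k) {T : ℕ → ℂ ≃ₜ ℂ} (hT : Tw T) :
    Continuous (ext k (fun i => T i)) := by
  rw [continuous_iff_continuousAt]
  intro x
  rcases cover hk x with ⟨i, h⟩ | h
  · have h1 : ContinuousOn (fun x => k i (T i ((k i).symm x))) (k i).target := by
      apply (k i).continuousOn.comp ((T i).continuous.comp_continuousOn (k i).continuousOn_symm)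
      intro y hy
      exact T_source hk hT ((k i).map_target hy)
    have h2 : ContinuousOn (ext k (fun i => T i)) (k i).target :=
      h1.congr (fun y hy => ext_of_mem hJ hk hy)
    exact h2.continuousAt ((k i).open_target.mem_nhds h)
  · have h2 : ContinuousOn (ext k (fun i => T i)) (core k)ᶜ :=
      continuousOn_id.congr (fun y hy => ext_outside hJ hk hT hy)
    exact h2.continuousAt ((core_closed hJ hk).isOpen_compl.mem_nhds h)

lemma ext_ext (hJ : Data J) (hk : IsK J O k) {T T' : ℕ → ℂ ≃ₜ ℂ} (hT : Tw T)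
    (hTT : ∀ i z, T' i (T i z) = z) (x : Sf J) :
    ext k (fun i => T' i) (ext k (fun i => T i) x) = x := by
  by_cases h : ∃ i, x ∈ (k i).target
  · obtain ⟨i, hi⟩ := h
    rw [ext_of_mem hJ hk hi, ext_k hJ hk (T_source hk hT ((k i).map_target hi)), hTT,
      (k i).right_inv hi]
  · rw [ext_of_notMem h, ext_of_notMem h]

/-- the infinite product as a homeomorphism -/
noncomputable def extH (hJ : Data J) (hk : IsK J O k) {T : ℕ → ℂ ≃ₜ ℂ} (hT : Tw T) :
    Sf J ≃ₜ Sf J where
  toFun := ext k (fun i => T i)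
  invFun := ext k (fun i => (T i).symm)
  left_inv := ext_ext (T' := fun i => (T i).symm) hJ hk hT (fun i z => (T i).symm_apply_apply z)
  right_inv := ext_ext (T := fun i => (T i).symm) (T' := T) hJ hk hT.symm
    (fun i z => (T i).apply_symm_apply z)
  continuous_toFun := ext_continuous hJ hk hT
  continuous_invFun := ext_continuous (T := fun i => (T i).symm) hJ hk hT.symm

lemma extH_apply (hJ : Data J) (hk : IsK J O k) {T : ℕ → ℂ ≃ₜ ℂ} (hT : Tw T) (x : Sf J) :
    extH hJ hk hT x = ext k (fun i => T i) x := rfl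

/-- the compact support in one disc -/
def supp : Set ℂ := {z | ‖z‖ ≤ 7/10 ∧ ∀ e ∈ inC E3, 1/25 ≤ ‖z - e‖}

lemma supp_sub (hk : IsK J O k) (i : ℕ) : supp ⊆ (k i).source := by
  rintro z ⟨h1, h2⟩
  rw [(hk i).2.1]
  refine ⟨?_, ?_⟩
  · rw [mem_ball_zero_iff]; linarith
  · intro h
    have := h2 z h
    rw [sub_self, norm_zero] at this
    norm_num at this

lemma supp_compact : IsCompact supp := by
  apply Metric.isCompact_of_isClosed_isBounded
  · have : supp = {z : ℂ | ‖z‖ ≤ 7/10} ∩ ⋂ e ∈ inC E3, {z : ℂ | 1/25 ≤ ‖z - e‖} := by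
      ext z
      simp [supp]
    rw [this]
    apply IsClosed.inter
    · exact isClosed_le continuous_norm continuous_const
    · exact isClosed_biInter fun e _ =>
        isClosed_le continuous_const (continuous_id.sub continuous_const).norm
  · apply (Metric.isBounded_closedBall (x := (0 : ℂ)) (r := 7/10)).subset
    intro z hz
    rw [mem_closedBall_zero_iff]
    exact hz.1

/-- the extension fixes the ends -/
lemma extH_fixesEnds (hJ : Data J) (hk : IsK J O k) {T : ℕ → ℂ ≃ₜ ℂ} (hT : Tw T) :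
    FixesEnds (extH hJ hk hT) := by
  intro ε hε K hK
  set f : Sf J ≃ₜ Sf J := extH hJ hk hT with hf
  have hfa : ∀ x, f x = ext k (fun i => T i) x := fun x => rfl
  have hK' : IsCompact (f ⁻¹' K) := f.isCompact_preimage.2 hK
  have hL : IsCompact (K ∪ f ⁻¹' K) := hK.union hK'
  -- finitely many discs meet the compact set
  obtain ⟨t, ht⟩ : ∃ t : Finset ℕ, ∀ i ∉ t,
      k i '' (ball (0 : ℂ) 1 \ inC E3) ⊆ (K ∪ f ⁻¹' K)ᶜ := by
    have hA : IsCompact ((Subtype.val '' (K ∪ f ⁻¹' K) : Set X) ∩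
        ⋃ i, J i '' closedBall (0 : ℂ) 1) :=
      (hL.image continuous_subtype_val).inter_right hJ.closed
    obtain ⟨t, ht⟩ := hA.elim_finite_subcover (fun i => (J i).target)
      (fun i => (J i).open_target) (by
        rintro x ⟨_, hx⟩
        obtain ⟨i, z, hz, rfl⟩ := mem_iUnion.1 hx
        refine mem_iUnion.2 ⟨i, (J i).map_source ?_⟩
        rw [hJ.source]
        rw [mem_closedBall_zero_iff] at hz
        rw [mem_ball_zero_iff]
        linarith)
    refine ⟨t, ?_⟩
    rintro i hi x ⟨z, hz, rfl⟩ hzL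
    have hzs : z ∈ (k i).source := core_sub hk i ⟨ball_subset_closedBall hz.1, hz.2⟩
    have e1 := (hk i).2.2 z hzs
    have hJs : z ∈ (J i).source := by
      rw [hJ.source]
      rw [(hk i).2.1] at hzs
      exact hzs.1
    have h1 : J i z ∈ (Subtype.val '' (K ∪ f ⁻¹' K) : Set X) ∩
        ⋃ i, J i '' closedBall (0 : ℂ) 1 :=
      ⟨⟨k i z, hzL, e1⟩, mem_iUnion.2 ⟨i, z, ball_subset_closedBall hz.1, rfl⟩⟩
    obtain ⟨m, hm, hmt⟩ := mem_iUnion₂.1 (ht h1)
    by_cases him : i = m
    · exact hi (him ▸ hm)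
    · exact Set.disjoint_left.1 (hJ.disj him) ((J i).map_source hJs) hmt
  set K2 : Set (Sf J) := (K ∪ f ⁻¹' K) ∪ ⋃ i ∈ t, k i '' supp with hK2
  have hK2c : IsCompact K2 := by
    apply hL.union
    apply t.isCompact_biUnion
    intro i _
    exact supp_compact.image_of_continuousOn ((k i).continuousOn.mono (supp_sub hk i))
  -- a point of the end whose image is in the same component
  have hpt : ∃ x ∈ ε (K ∪ f ⁻¹' K), f x ∈ ε (K ∪ f ⁻¹' K) := by
    obtain ⟨x, hx, hεx⟩ := hε.1 _ hK2c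
    have hxm : x ∈ ε K2 := by
      rw [hεx]
      exact mem_connectedComponentIn hx
    have hxL : x ∈ ε (K ∪ f ⁻¹' K) := hε.2 _ _ hL hK2c subset_union_left hxm
    refine ⟨x, hxL, ?_⟩
    by_cases hfx : f x = x
    · rw [hfx]
      exact hxL
    · rw [hfa] at hfx
      have h2 : ∃ i, x ∈ (k i).target := by
        by_contra h3
        exact hfx (ext_of_notMem h3)
      obtain ⟨i, hi⟩ := h2
      rw [ext_of_mem hJ hk hi] at hfx
      set w : ℂ := (k i).symm x with hw
      have hws : w ∈ (k i).source := (k i).map_target hi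
      have hxw : k i w = x := (k i).right_inv hi
      have hTw : T i w ≠ w := by
        intro h4
        rw [h4] at hfx
        exact hfx hxw
      have hw7 : ‖w‖ < 7/10 := by
        by_contra h4
        exact hTw (hT.far i w (not_lt.1 h4))
      have hwE : w ∉ inC E3 := by
        rw [(hk i).2.1] at hws
        exact hws.2
      have hwsupp : w ∈ supp := by
        refine ⟨hw7.le, fun e he => ?_⟩
        by_contra h4
        exact hTw (hT.near i e he w (not_le.1 h4).le)
      have hit : i ∉ t := by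
        intro h4
        apply hx
        right
        exact mem_iUnion₂.2 ⟨i, h4, w, hwsupp, hxw⟩
      have hw1 : w ∈ ball (0 : ℂ) 1 \ inC E3 := by
        refine ⟨?_, hwE⟩
        rw [mem_ball_zero_iff]; linarith
      have hTw1 : T i w ∈ ball (0 : ℂ) 1 \ inC E3 := hT.ball i (by norm_num) hw1
      have hpre : IsPreconnected (k i '' (ball (0 : ℂ) 1 \ inC E3)) := by
        apply conn_ball.image
        apply (k i).continuousOn.mono
        intro z hz
        exact core_sub hk i ⟨ball_subset_closedBall hz.1, hz.2⟩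
      obtain ⟨x0, hx0, hεL⟩ := hε.1 _ hL
      have e1 : ε (K ∪ f ⁻¹' K) = connectedComponentIn (K ∪ f ⁻¹' K)ᶜ x := by
        rw [hεL] at hxL ⊢
        exact connectedComponentIn_eq hxL
      rw [e1]
      apply hpre.subset_connectedComponentIn ⟨w, hw1, hxw⟩ (ht i hit)
      rw [hfa, ext_of_mem hJ hk hi]
      exact ⟨T i w, hTw1, rfl⟩
  obtain ⟨x, hx, hfx⟩ := hpt
  have hxK : f x ∈ ε K := hε.2 _ _ hK hL subset_union_left hfx
  have hxK' : x ∈ ε (f ⁻¹' K) := hε.2 _ _ hK' hL subset_union_right hx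
  obtain ⟨y, hy, hyε⟩ := hε.1 _ hK
  obtain ⟨y', hy', hyε'⟩ := hε.1 _ hK'
  have e1 : ε K = connectedComponentIn Kᶜ (f x) := by
    rw [hyε] at hxK ⊢
    exact connectedComponentIn_eq hxK
  have e2 : ε (f ⁻¹' K) = connectedComponentIn (f ⁻¹' K)ᶜ x := by
    rw [hyε'] at hxK' ⊢
    exact connectedComponentIn_eq hxK'
  have hxc : x ∈ (f ⁻¹' K)ᶜ := by
    rw [e2] at hxK'
    exact connectedComponentIn_subset _ _ hxK'
  rw [e1, e2, f.image_connectedComponentIn hxc]
  congr 1
  rw [← preimage_compl, f.image_preimage]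

/-- the extension preserves the orientation -/
lemma extH_pos (h : Pool.Agent.Helper78.BigMap.GoalC1) (hJ : Data J) (hO : IsOrientedAtlas O)
    (hk : IsK J O k) {T : ℕ → ℂ ≃ₜ ℂ} (hT : Tw T) (hpos : ∀ i z, PosAt (T i) z) :
    PreservesOrientation O (extH hJ hk hT) := by
  intro φ hφ ψ hψ x hx hfx
  rw [extH_apply] at hfx
  rcases cover hk x with ⟨i, hxt⟩ | hxt
  · -- inside the patch
    set j : OpenPartialHomeomorph ℂ (Sf J) := k i with hj
    have hjO : j.symm ∈ O := (hk i).1
    set w : ℂ := j.symm x with hw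
    have hws : w ∈ j.source := j.map_target hxt
    have hTs : T i w ∈ j.source := T_source hk hT hws
    have hfe : ext k (fun i => T i) x = j (T i w) := ext_of_mem hJ hk hxt
    rw [hfe] at hfx
    have hφx : φ.symm (φ x) = x := φ.left_inv hx
    -- first map
    have p1 : PosAt (fun z => j.symm (φ.symm z)) (φ x) := hO.2 φ hφ j.symm hjO x ⟨hx, hxt⟩
    have c1 : ∀ᶠ z in 𝓝 (φ x), ContinuousAt (fun z => j.symm (φ.symm z)) z := by
      have ho : IsOpen (φ.target ∩ φ.symm ⁻¹' j.target) :=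
        φ.isOpen_inter_preimage_symm j.open_target
      have hm : φ x ∈ φ.target ∩ φ.symm ⁻¹' j.target := by
        refine ⟨φ.map_source hx, ?_⟩
        rw [mem_preimage, hφx]
        exact hxt
      filter_upwards [ho.mem_nhds hm] with z hz
      exact ContinuousAt.comp (g := j.symm) (j.continuousAt_symm hz.2)
        (φ.continuousAt_symm hz.1)
    have v1 : j.symm (φ.symm (φ x)) = w := by
      rw [hφx]
    -- second map
    have p2 : PosAt (fun z => T i (j.symm (φ.symm z))) (φ x) := by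
      apply h (fun z => j.symm (φ.symm z)) (T i) (φ x) p1 c1.self_of_nhds
      · exact hpos i _
      · exact Filter.Eventually.of_forall (fun z => (T i).continuous.continuousAt)
      · exact Filter.Eventually.of_forall (fun z hz => (T i).injective hz)
      · exact c1
    have c2 : ∀ᶠ z in 𝓝 (φ x), ContinuousAt (fun z => T i (j.symm (φ.symm z))) z := by
      filter_upwards [c1] with z hz
      exact (T i).continuous.continuousAt.comp hz
    have v2 : T i (j.symm (φ.symm (φ x))) = T i w := by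
      rw [hφx]
    -- third map
    have hjT : j.symm (j (T i w)) = T i w := j.left_inv hTs
    have p3 : PosAt (fun z => ψ (j z)) (T i w) := by
      have := hO.2 j.symm hjO ψ hψ (j (T i w)) ⟨j.map_source hTs, hfx⟩
      rw [OpenPartialHomeomorph.symm_symm, hjT] at this
      exact this
    have ho3 : IsOpen (j.source ∩ j ⁻¹' ψ.source) := j.isOpen_inter_preimage ψ.open_source
    have hm3 : T i w ∈ j.source ∩ j ⁻¹' ψ.source := ⟨hTs, hfx⟩
    have p4 : PosAt (fun z => (fun y => ψ (j y)) ((fun z => T i (j.symm (φ.symm z))) z)) (φ x) := by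
      apply h (fun z => T i (j.symm (φ.symm z))) (fun y => ψ (j y)) (φ x) p2 c2.self_of_nhds
      · rw [v2]
        exact p3
      · rw [v2]
        filter_upwards [ho3.mem_nhds hm3] with z hz
        exact ContinuousAt.comp (g := ψ) (ψ.continuousAt hz.2) (j.continuousAt hz.1)
      · rw [v2]
        filter_upwards [ho3.mem_nhds hm3] with z hz hzz
        have e1 := ψ.injOn hz.2 hfx hzz
        exact j.injOn hz.1 hTs e1
      · exact c2
    refine Pool.Agent.Helper67.Big.posAt_congr p4 ?_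
    have ho : IsOpen (φ.target ∩ φ.symm ⁻¹' j.target) :=
      φ.isOpen_inter_preimage_symm j.open_target
    have hm : φ x ∈ φ.target ∩ φ.symm ⁻¹' j.target := by
      refine ⟨φ.map_source hx, ?_⟩
      rw [mem_preimage, hφx]
      exact hxt
    filter_upwards [ho.mem_nhds hm] with z hz
    rw [extH_apply, ext_of_mem hJ hk hz.2]
  · -- outside: the map is the identity near `x`
    have hfe : ext k (fun i => T i) x = x := ext_outside hJ hk hT hxt
    rw [hfe] at hfx
    have p1 : PosAt (fun z => ψ (φ.symm z)) (φ x) := hO.2 φ hφ ψ hψ x ⟨hx, hfx⟩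
    refine Pool.Agent.Helper67.Big.posAt_congr p1 ?_
    have ho : IsOpen (φ.target ∩ φ.symm ⁻¹' (core k)ᶜ) :=
      φ.isOpen_inter_preimage_symm (core_closed hJ hk).isOpen_compl
    have hm : φ x ∈ φ.target ∩ φ.symm ⁻¹' (core k)ᶜ := by
      refine ⟨φ.map_source hx, ?_⟩
      rw [mem_preimage, φ.left_inv hx]
      exact hxt
    filter_upwards [ho.mem_nhds hm] with z hz
    rw [extH_apply, ext_outside hJ hk hT hz.2]

end

theorem goalE3 : Pool.Agent.Helper64.PQ.GoalE3 := by
  intro X _ _ J O k hJ hO hk T h1 h2 hpos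
  have hT : Tw T := ⟨h1, h2⟩
  refine ⟨extH hJ hk hT, extH_fixesEnds hJ hk hT,
    extH_pos Pool.Agent.Helper90.Big.goalC1 hJ hO hk hT hpos, ?_⟩
  intro i z hz
  rw [extH_apply, ext_k hJ hk hz]

end Pool.Agent.Helper19.PQ
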